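import Mathlib

/-!
# Even-nearly conservative weights: definitions
-/

set_option autoImplicit false

namespace Pool.Agent.Q227.EN

/-- Data of a weighted digraph: the number `n` of the vertices, which are `0, …, n - 1`, and the
list of the arcs together with their weights; `((u, v), c)` is an arc from `u` to `v` of
weight `c`. -/
abbrev WData : Type := ℕ × List ((ℕ × ℕ) × ℚ)

/-- The data describe a digraph without loops and parallel arcs. -/
def IsWDigraph (D : WData) : Prop :=
  (D.2.map Prod.fst).Nodup ∧ ∀ a ∈ D.2, a.1.1 < D.1 ∧ a.1.2 < D.1 ∧ a.1.1 ≠ a.1.2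

/-- With every arc the opposite arc is present and has the same weight. -/
def IsSymmetric (D : WData) : Prop :=
  ∀ a ∈ D.2, ((a.1.2, a.1.1), a.2) ∈ D.2

/-- The list `C` of arcs is a directed cycle: it has at least two arcs, their tails are distinct,
and the head of every arc is the tail of the (cyclically) next one. -/
def IsCycle (D : WData) (C : List ((ℕ × ℕ) × ℚ)) : Prop :=
  2 ≤ C.length ∧ (∀ a ∈ C, a ∈ D.2) ∧ (C.map fun a => a.1.1).Nodup ∧
    (C.map fun a => a.1.2) = (C.map fun a => a.1.1).rotate 1

/-- The weight of a list of arcs. -/
def weight (C : List ((ℕ × ℕ) × ℚ)) : ℚ := (C.map fun a => a.2).sum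

/-- The weights are even-nearly conservative: every negative directed cycle has an even number of
arcs. -/
def EvenNearlyConservative (D : WData) : Prop :=
  ∀ C, IsCycle D C → weight C < 0 → Even C.length

end Pool.Agent.Q227.EN
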