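import Pool.Agent.Q227.EN.Defs
import Pool.Agent.Q227.TF.Mk

/-!
# Weighted digraphs from lists of structured vertices
-/

set_option autoImplicit false

namespace Pool.Agent.Q227.EN

open Pool.Agent.NPC

/-- The weighted digraph whose vertices are the positions in `L`. -/
def mkW {V : Type} (L : List V) (arc : V → V → Bool) (w : V → V → ℚ) : WData :=
  (L.length, L.zipIdx.flatMap fun p =>
    (L.zipIdx.filter fun q => arc p.1 q.1).map fun q => ((p.2, q.2), w p.1 q.1))

theorem mem_mkW {V : Type} {L : List V} {arc : V → V → Bool} {w : V → V → ℚ} {i j : ℕ} {c : ℚ} :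
    ((i, j), c) ∈ (mkW L arc w).2 ↔
      ∃ u v, L[i]? = some u ∧ L[j]? = some v ∧ arc u v = true ∧ c = w u v := by
  unfold mkW
  simp only [List.mem_flatMap, List.mem_map, List.mem_filter, List.mem_zipIdx_iff_getElem?,
    Prod.exists, Prod.mk.injEq]
  constructor
  · rintro ⟨u, i', hu, v, j', ⟨hv, ha⟩, ⟨rfl, rfl⟩, rfl⟩
    exact ⟨u, v, hu, hv, ha, rfl⟩
  · rintro ⟨u, v, hu, hv, ha, rfl⟩
    exact ⟨u, i, hu, v, j, ⟨hv, ha⟩, ⟨rfl, rfl⟩, rfl⟩

theorem mkW_fst {V : Type} (L : List V) (arc : V → V → Bool) (w : V → V → ℚ) :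
    (mkW L arc w).2.map Prod.fst = (mkDG L arc).2 := by
  unfold mkW mkDG
  simp only [List.map_flatMap, List.map_map]
  rfl

theorem mkW_isWDigraph {V : Type} {L : List V} {arc : V → V → Bool} {w : V → V → ℚ}
    (harc : ∀ v ∈ L, arc v v = false) : IsWDigraph (mkW L arc w) := by
  refine ⟨by rw [mkW_fst]; exact mkDG_nodup L arc, fun a ha => ?_⟩
  have h : a.1 ∈ (mkDG L arc).2 := by
    rw [← mkW_fst L arc w]
    exact List.mem_map_of_mem ha
  exact ⟨(mkDG_lt h).1, (mkDG_lt h).2, mkDG_ne harc h⟩

theorem mkW_poly {α V : Type} [TEnc α] [TEnc V] {L : α → List V} {arc : α → V → V → Bool}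
    {w : α → V → V → ℚ}
    (hL : NPC.Poly L) (ha : NPC.Poly (fun p : α × V × V => arc p.1 p.2.1 p.2.2))
    (hw : NPC.Poly (fun p : α × V × V => w p.1 p.2.1 p.2.2)) :
    NPC.Poly (fun a => mkW (L a) (arc a) (w a)) := by
  unfold mkW
  refine NPC.Poly.pair (NPC.Poly.length hL) ?_
  refine NPC.Poly.flatMap (F := fun a (p : V × ℕ) =>
    ((L a).zipIdx.filter fun q => arc a p.1 q.1).map fun q => ((p.2, q.2), w a p.1 q.1))
    (NPC.Poly.zipIdx hL) ?_
  have hs : NPC.Poly (fun x : (α × (V × ℕ)) × (V × ℕ) => (x.1.1, x.1.2.1, x.2.1)) :=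
    NPC.Poly.pair (NPC.Poly.fst (NPC.Poly.fst NPC.Poly.id))
      (NPC.Poly.pair (NPC.Poly.fst (NPC.Poly.snd (NPC.Poly.fst NPC.Poly.id)))
        (NPC.Poly.fst (NPC.Poly.snd NPC.Poly.id)))
  refine NPC.Poly.map (F := fun (x : α × (V × ℕ)) (q : V × ℕ) =>
    ((x.2.2, q.2), w x.1 x.2.1 q.1)) ?_ ?_
  · refine NPC.Poly.filter (p := fun (x : α × (V × ℕ)) (q : V × ℕ) => arc x.1 x.2.1 q.1)
      ((NPC.Poly.zipIdx hL).comp (NPC.Poly.fst NPC.Poly.id)) ?_
    exact ha.comp hs
  · exact NPC.Poly.pair (NPC.Poly.pair (NPC.Poly.snd (NPC.Poly.snd (NPC.Poly.fst NPC.Poly.id)))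
      (NPC.Poly.snd (NPC.Poly.snd NPC.Poly.id))) (hw.comp hs)

/-- Weight of a walk, given by the list of its vertices. -/
def ws {V : Type} (w : V → V → ℚ) : List V → ℚ
  | x :: y :: l => w x y + ws w (y :: l)
  | _ => 0

section

variable {V : Type} {L : List V} {arc : V → V → Bool} {w : V → V → ℚ}

theorem path_of [Inhabited V] : ∀ (C : List ((ℕ × ℕ) × ℚ)) (e : ℕ), C ≠ [] →
    (∀ a ∈ C, a ∈ (mkW L arc w).2) →
    (C.map fun a => a.1.2) = (C.map fun a => a.1.1).tail ++ [e] →
    (((C.map fun a => a.1.1) ++ [e]).map fun i => L[i]?.getD default).IsChain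
      (fun x y => arc x y = true) ∧
    weight C = ws w (((C.map fun a => a.1.1) ++ [e]).map fun i => L[i]?.getD default) := by
  intro C
  induction C with
  | nil => intro e h; exact absurd rfl h
  | cons a C ih =>
    intro e _ hm hh
    have ha := hm a List.mem_cons_self
    obtain ⟨⟨i, j⟩, c⟩ := a
    obtain ⟨u, v, hu, hv, huv, rfl⟩ := mem_mkW.1 ha
    cases C with
    | nil =>
      simp only [List.map_cons, List.map_nil, List.tail_cons, List.nil_append, List.cons.injEq,
        and_true] at hh
      subst hh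
      simp [ws, weight, hu, hv, huv]
    | cons b C =>
      simp only [List.map_cons, List.tail_cons, List.cons_append, List.cons.injEq] at hh
      obtain ⟨h1, h2⟩ := hh
      have h3 := ih e (by simp) (fun x hx => hm x (List.mem_cons_of_mem _ hx)) (by
        simp only [List.map_cons, List.tail_cons]
        exact h2)
      simp only [List.map_cons, List.cons_append, List.isChain_cons_cons, ws] at h3 ⊢
      rw [← h1]
      rw [← h1] at h3
      refine ⟨⟨?_, h3.1⟩, ?_⟩
      · rw [hu, hv]
        exact huv
      · rw [← h3.2, hu, hv]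
        simp [weight]

/-- The arcs of a walk. -/
def mkC [DecidableEq V] (L : List V) (w : V → V → ℚ) : List V → List ((ℕ × ℕ) × ℚ)
  | x :: y :: l => ((L.idxOf x, L.idxOf y), w x y) :: mkC L w (y :: l)
  | _ => []

theorem mkC_weight [DecidableEq V] (l : List V) : weight (mkC L w l) = ws w l := by
  induction l with
  | nil => rfl
  | cons x l ih =>
    cases l with
    | nil => rfl
    | cons y l =>
      simp only [mkC, ws, weight, List.map_cons, List.sum_cons] at ih ⊢
      rw [ih]

theorem mkC_tails [DecidableEq V] (l : List V) (e : V) :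
    (mkC L w (l ++ [e])).map (fun a => a.1.1) = l.map L.idxOf := by
  induction l with
  | nil => rfl
  | cons x l ih =>
    cases l with
    | nil => rfl
    | cons y l =>
      simp only [List.cons_append, mkC, List.map_cons] at ih ⊢
      rw [ih]

theorem mkC_heads [DecidableEq V] (x : V) (l : List V) :
    (mkC L w (x :: l)).map (fun a => a.1.2) = l.map L.idxOf := by
  induction l generalizing x with
  | nil => rfl
  | cons y l ih =>
    simp only [mkC, List.map_cons]
    rw [ih y]

theorem mkC_mem [DecidableEq V] (l : List V) (hl : ∀ x ∈ l, x ∈ L)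
    (hc : l.IsChain (fun x y => arc x y = true)) : ∀ a ∈ mkC L w l, a ∈ (mkW L arc w).2 := by
  induction l with
  | nil => intro a ha; simp [mkC] at ha
  | cons x l ih =>
    cases l with
    | nil => intro a ha; simp [mkC] at ha
    | cons y l =>
      intro a ha
      rw [List.isChain_cons_cons] at hc
      simp only [mkC, List.mem_cons] at ha
      rcases ha with rfl | ha
      · refine mem_mkW.2 ⟨x, y, ?_, ?_, hc.1, rfl⟩
        · exact List.getElem?_idxOf (hl x (by simp))
        · exact List.getElem?_idxOf (hl y (by simp))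
      · exact ih (fun z hz => hl z (List.mem_cons_of_mem _ hz)) hc.2 a ha

theorem mkC_length [DecidableEq V] (l : List V) (e : V) :
    (mkC L w (l ++ [e])).length = l.length := by
  have := congrArg List.length (mkC_tails (L := L) (w := w) l e)
  simpa using this

theorem enc_iff [Inhabited V] [DecidableEq V] (hL : L.Nodup) :
    EvenNearlyConservative (mkW L arc w) ↔ ∀ (a : V) (t : List V), 1 ≤ t.length →
      (a :: t).Nodup → (∀ x ∈ a :: t, x ∈ L) → (a :: (t ++ [a])).IsChain
        (fun x y => arc x y = true) → ws w (a :: (t ++ [a])) < 0 → Even (t.length + 1) := by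
  constructor
  · intro h a t h1 h2 h3 h4 h5
    have hcm : ∀ x ∈ a :: (t ++ [a]), x ∈ L := by
      intro x hx
      apply h3
      simp only [List.mem_cons, List.mem_append, List.not_mem_nil, or_false] at hx ⊢
      tauto
    have hta := mkC_tails (L := L) (w := w) (a :: t) a
    have hlen := mkC_length (L := L) (w := w) (a :: t) a
    rw [List.cons_append] at hta hlen
    have := h (mkC L w (a :: (t ++ [a]))) ⟨?_, mkC_mem _ hcm h4, ?_, ?_⟩ ?_
    · rwa [hlen, List.length_cons] at this
    · rw [hlen, List.length_cons]; omega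
    · rw [hta]
      refine List.Nodup.map_on ?_ h2
      intro x hx y hy hxy
      have e1 := List.getElem?_idxOf (h3 x hx)
      have e2 := List.getElem?_idxOf (h3 y hy)
      rw [hxy, e2] at e1
      exact (Option.some.inj e1).symm
    · rw [hta, mkC_heads, List.map_cons, List.rotate_cons_succ, List.rotate_zero, List.map_append,
        List.map_cons, List.map_nil]
    · rw [mkC_weight]
      exact h5
  · rintro h C ⟨h1, h2, h3, h4⟩ h5
    obtain ⟨a, C', rfl⟩ : ∃ a C', C = a :: C' := by
      cases C with
      | nil => simp at h1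
      | cons a C => exact ⟨a, C, rfl⟩
    have h6 := path_of (L := L) (arc := arc) (w := w) (a :: C') a.1.1 (by simp) h2 (by
      rw [h4, List.map_cons, List.rotate_cons_succ, List.rotate_zero, List.tail_cons])
    have hidx : ∀ x ∈ a :: C', x.1.1 < L.length := by
      intro x hx
      obtain ⟨⟨i, j⟩, c⟩ := x
      obtain ⟨u, v, hu, _⟩ := mem_mkW.1 (h2 _ hx)
      exact (List.getElem?_eq_some_iff.1 hu).1
    have hmm : ∀ i, i < L.length → L[i]?.getD default ∈ L := by
      intro i hi
      rw [List.getElem?_eq_getElem hi, Option.getD_some]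
      exact List.getElem_mem hi
    have h7 := h (L[a.1.1]?.getD default)
      ((C'.map fun a => a.1.1).map fun i => L[i]?.getD default) ?_ ?_ ?_ ?_ ?_
    · simpa using h7
    · simp only [List.length_map]
      simp only [List.length_cons] at h1
      omega
    · have : (((a :: C').map fun a => a.1.1).map fun i => L[i]?.getD default).Nodup := by
        refine List.Nodup.map_on ?_ h3
        intro i hi j hj hij
        rw [List.mem_map] at hi hj
        obtain ⟨x, hx, rfl⟩ := hi
        obtain ⟨y, hy, rfl⟩ := hj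
        simp only [List.getElem?_eq_getElem (hidx x hx), List.getElem?_eq_getElem (hidx y hy),
          Option.getD_some] at hij
        exact (List.Nodup.getElem_inj_iff hL).1 hij
      exact this
    · intro x hx
      have h8 : x ∈ (((a :: C').map fun a => a.1.1).map fun i => L[i]?.getD default) := hx
      rw [List.mem_map] at h8
      obtain ⟨i, hi, rfl⟩ := h8
      rw [List.mem_map] at hi
      obtain ⟨y, hy, rfl⟩ := hi
      exact hmm _ (hidx y hy)
    · have := h6.1
      simpa using this
    · have := h6.2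
      rw [this] at h5
      simpa using h5

end

end Pool.Agent.Q227.EN
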