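import Pool.Agent.Q227.EN.Red
import Pool.Agent.H671R2.PolyAuto

/-!
# Even-nearly conservative weights: the reduction is computed in polynomial time
-/

set_option autoImplicit false

namespace Pool.Agent.Q227.EN

open Pool.Agent.NPC Pool.Agent.Q227.HC

theorem natCast_rat_poly {α : Type} [TEnc α] {f : α → ℕ} (hf : NPC.Poly f) :
    NPC.Poly (fun a => ((f a : ℕ) : ℚ)) :=
  NPC.Poly.of_toT ((NPC.Poly.toT' (NPC.Poly.pair (NPC.Poly.natCast_int hf)
    (NPC.Poly.const (1 : ℕ)))).congr fun a => by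
    change toT (((f a : ℕ) : ℤ), (1 : ℕ)) = toT (((f a : ℕ) : ℚ).num, ((f a : ℕ) : ℚ).den)
    rw [Rat.num_natCast, Rat.den_natCast])

theorem vL_poly : NPC.Poly (fun I : List ℕ × List (ℕ × ℕ) => vL (I.1.length, I.2)) := by
  have hn : NPC.Poly (fun I : List ℕ × List (ℕ × ℕ) => List.range I.1.length) :=
    (UPoly.length (NPC.Poly.fst NPC.Poly.id)).range
  unfold vL adjE
  fun_prop

theorem arcB_poly : NPC.Poly (fun p : (List ℕ × List (ℕ × ℕ)) × Vx × Vx => arcB p.2.1 p.2.2) := by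
  unfold arcB arc0
  fun_prop

theorem wt_poly :
    NPC.Poly (fun p : (List ℕ × List (ℕ × ℕ)) × Vx × Vx => wt p.1.1.length p.2.1 p.2.2) := by
  have h : NPC.Poly (fun p : (List ℕ × List (ℕ × ℕ)) × Vx × Vx =>
      ((2 * p.1.1.length - 1 : ℕ) : ℚ)) :=
    natCast_rat_poly (f := fun p : (List ℕ × List (ℕ × ℕ)) × Vx × Vx => 2 * p.1.1.length - 1)
      (by fun_prop)
  have h1 : NPC.Poly (fun p : (List ℕ × List (ℕ × ℕ)) × Vx × Vx =>
      decide (p.2.1.1 ≤ 1 ∧ p.2.2.1 ≤ 1)) := by fun_prop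
  unfold wt
  exact NPC.Poly.ite h1 h (NPC.Poly.const _)

theorem inst_poly : NPC.Poly (fun I : List ℕ × List (ℕ × ℕ) => inst (I.1.length, I.2)) :=
  mkW_poly (L := fun I : List ℕ × List (ℕ × ℕ) => vL (I.1.length, I.2)) (arc := fun _ => arcB)
    (w := fun I => wt I.1.length) vL_poly arcB_poly wt_poly

end Pool.Agent.Q227.EN
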