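import Pool.Agent.Q227.EN.Mk
import Pool.Agent.Q227.HC

/-!
# Even-nearly conservative weights: the reduction from Hamiltonian cycles
-/

set_option autoImplicit false

namespace Pool.Agent.Q227.EN

open Pool.Agent.NPC Pool.Agent.Q227.HC

/-- Structured vertices: `(0, u, 0)` for a vertex `u`, `(1, 0, 0)` for the twin of the vertex `0`,
`(2, u, v)` for the edge `uv`. -/
abbrev Vx : Type := ℕ × ℕ × ℕ

/-- Half of the arcs. -/
def arc0 (x y : Vx) : Bool :=
  (decide (x.1 = 0) && (decide (y.1 = 2) && (decide (x.2.1 = y.2.1) || decide (x.2.1 = y.2.2)))) ||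
  ((decide (x.1 = 1) && (decide (y.1 = 2) && (decide (y.2.1 = 0) || decide (y.2.2 = 0)))) ||
  (decide (x.1 = 0) && (decide (x.2.1 = 0) && decide (y.1 = 1))))

/-- The arcs. -/
def arcB (x y : Vx) : Bool := arc0 x y || arc0 y x

/-- The weights. -/
def wt (n : ℕ) (x y : Vx) : ℚ := if x.1 ≤ 1 ∧ y.1 ≤ 1 then ((2 * n - 1 : ℕ) : ℚ) else -1

/-- The list of the vertices. -/
def vL (I : ℕ × List (ℕ × ℕ)) : List Vx :=
  (List.range I.1).map (fun u => (0, u, 0)) ++ ((1, 0, 0) ::
    ((List.range I.1 ×ˢ List.range I.1).filter (fun p => adjE I.2 p.1 p.2)).map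
      (fun p => (2, p.1, p.2)))

theorem arc0_iff {x y : Vx} : arc0 x y = true ↔
    (x.1 = 0 ∧ y.1 = 2 ∧ (x.2.1 = y.2.1 ∨ x.2.1 = y.2.2)) ∨
    (x.1 = 1 ∧ y.1 = 2 ∧ (y.2.1 = 0 ∨ y.2.2 = 0)) ∨ (x.1 = 0 ∧ x.2.1 = 0 ∧ y.1 = 1) := by
  unfold arc0
  simp only [Bool.or_eq_true, Bool.and_eq_true, decide_eq_true_eq]

theorem arcB_iff {x y : Vx} : arcB x y = true ↔ arc0 x y = true ∨ arc0 y x = true := by
  unfold arcB
  rw [Bool.or_eq_true]

theorem arcB_symm {x y : Vx} (h : arcB x y = true) : arcB y x = true := by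
  rw [arcB_iff] at h ⊢
  exact h.symm

theorem arcB_irrefl (x : Vx) : arcB x x = false := by
  rw [← Bool.not_eq_true, arcB_iff, arc0_iff]
  omega

theorem mem_vL {I : ℕ × List (ℕ × ℕ)} {k a b : ℕ} : (k, a, b) ∈ vL I ↔
    (k = 0 ∧ a < I.1 ∧ b = 0) ∨ (k = 1 ∧ a = 0 ∧ b = 0) ∨
      (k = 2 ∧ a < I.1 ∧ b < I.1 ∧ adjE I.2 a b = true) := by
  unfold vL
  simp only [List.mem_append, List.mem_map, List.mem_range, List.mem_cons, List.mem_filter,
    List.mem_product, Prod.exists, Prod.mk.injEq]
  constructor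
  · rintro (⟨u, h, rfl, rfl, rfl⟩ | h | ⟨u, v, h, rfl, rfl, rfl⟩)
    · exact Or.inl ⟨rfl, h, rfl⟩
    · exact Or.inr (Or.inl h)
    · exact Or.inr (Or.inr ⟨rfl, h.1.1, h.1.2, h.2⟩)
  · rintro (⟨rfl, h, rfl⟩ | h | ⟨rfl, h1, h2, h3⟩)
    · exact Or.inl ⟨a, h, rfl, rfl, rfl⟩
    · exact Or.inr (Or.inl h)
    · exact Or.inr (Or.inr ⟨a, b, ⟨⟨h1, h2⟩, h3⟩, rfl, rfl, rfl⟩)

theorem vL_nodup (I : ℕ × List (ℕ × ℕ)) : (vL I).Nodup := by
  unfold vL
  rw [List.nodup_append, List.nodup_cons]
  refine ⟨List.Nodup.map (fun a b h => ?_) List.nodup_range, ⟨?_, ?_⟩, ?_⟩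
  · exact (Prod.mk.inj (Prod.mk.inj h).2).1
  · intro h
    rw [List.mem_map] at h
    obtain ⟨p, _, hp⟩ := h
    exact absurd (congrArg Prod.fst hp) (by simp)
  · refine List.Nodup.map (fun a b h => ?_) ((List.nodup_range.product List.nodup_range).filter _)
    have h1 := (Prod.mk.inj h).2
    exact Prod.ext (Prod.mk.inj h1).1 (Prod.mk.inj h1).2
  · intro x hx y hy hxy
    subst hxy
    rw [List.mem_map] at hx
    obtain ⟨u, _, rfl⟩ := hx
    rw [List.mem_cons, List.mem_map] at hy
    rcases hy with h | ⟨p, _, hp⟩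
    · exact absurd (congrArg Prod.fst h) (by simp)
    · exact absurd (congrArg Prod.fst hp) (by simp)

/-- The instance. -/
def inst (I : ℕ × List (ℕ × ℕ)) : WData := mkW (vL I) arcB (wt I.1)

theorem wt_symm (n : ℕ) (x y : Vx) : wt n x y = wt n y x := by
  unfold wt
  by_cases h : x.1 ≤ 1 ∧ y.1 ≤ 1
  · rw [if_pos h, if_pos h.symm]
  · rw [if_neg h, if_neg (fun h' => h h'.symm)]

theorem inst_symmetric (I : ℕ × List (ℕ × ℕ)) : IsSymmetric (inst I) := by
  rintro ⟨⟨i, j⟩, c⟩ h
  obtain ⟨u, v, hu, hv, ha, rfl⟩ := mem_mkW.1 h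
  exact mem_mkW.2 ⟨v, u, hv, hu, arcB_symm ha, wt_symm _ _ _⟩

/-! ### From Hamiltonian cycles to negative odd cycles -/

/-- The path through the vertices of a list, the edges between them and an edge to `0`. -/
def ins : List ℕ → List Vx
  | [] => []
  | [u] => [(0, u, 0), (2, u, 0)]
  | u :: v :: l => (0, u, 0) :: (2, u, v) :: ins (v :: l)

theorem mem_ins {l : List ℕ} {k a b : ℕ} (h : (k, a, b) ∈ ins l) :
    a ∈ l ∧ ((k = 0 ∧ b = 0) ∨ (k = 2 ∧ (a, b) ∈ (l.zip l.tail) ++ [(l.getLastD 0, 0)])) := by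
  induction l with
  | nil => simp [ins] at h
  | cons u l ih =>
    cases l with
    | nil =>
      simp only [ins, List.mem_cons, Prod.mk.injEq, List.not_mem_nil, or_false] at h
      rcases h with ⟨rfl, rfl, rfl⟩ | ⟨rfl, rfl, rfl⟩
      · simp
      · simp
    | cons v l =>
      simp only [ins, List.mem_cons, Prod.mk.injEq] at h
      rcases h with ⟨rfl, rfl, rfl⟩ | ⟨rfl, rfl, rfl⟩ | h
      · simp
      · simp
      · obtain ⟨h1, h2⟩ := ih h
        refine ⟨List.mem_cons_of_mem _ h1, ?_⟩
        rcases h2 with h2 | ⟨h2, h3⟩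
        · exact Or.inl h2
        · refine Or.inr ⟨h2, ?_⟩
          simp only [List.tail_cons, List.zip_cons_cons, List.getLastD_cons, List.cons_append,
            List.mem_cons] at h3 ⊢
          exact Or.inr h3

theorem ins_nodup {l : List ℕ} (h : l.Nodup) : (ins l).Nodup := by
  induction l with
  | nil => simp [ins]
  | cons u l ih =>
    cases l with
    | nil => simp [ins]
    | cons v l =>
      rw [List.nodup_cons] at h
      simp only [ins, List.nodup_cons, List.mem_cons, Prod.mk.injEq]
      refine ⟨?_, ?_, ih h.2⟩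
      · rintro (⟨h1, _⟩ | h1)
        · exact absurd h1 (by decide)
        · exact h.1 (mem_ins h1).1
      · intro h1
        exact h.1 (mem_ins h1).1

theorem ins_length (l : List ℕ) : (ins l).length = 2 * l.length := by
  induction l with
  | nil => rfl
  | cons u l ih =>
    cases l with
    | nil => rfl
    | cons v l =>
      simp only [ins, List.length_cons] at ih ⊢
      omega

theorem ins_chain (u : ℕ) (l : List ℕ) :
    ((ins (u :: l)) ++ [(1, 0, 0)]).IsChain (fun x y => arcB x y = true) := by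
  induction l generalizing u with
  | nil => simp [ins, arcB, arc0]
  | cons v l ih =>
    have h := ih v
    have h1 : ∃ r, ins (v :: l) = (0, v, 0) :: r := by
      cases l with
      | nil => exact ⟨_, rfl⟩
      | cons w l => exact ⟨_, rfl⟩
    obtain ⟨r, hr⟩ := h1
    rw [hr, List.cons_append] at h
    simp only [ins, List.cons_append, hr, List.isChain_cons_cons]
    refine ⟨?_, ?_, h⟩
    · simp [arcB, arc0]
    · simp [arcB, arc0]

theorem ws_neg {n : ℕ} : ∀ l : List Vx, l.IsChain (fun x y => ¬ (x.1 ≤ 1 ∧ y.1 ≤ 1)) → l ≠ [] →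
    ws (wt n) l = 1 - (l.length : ℚ) := by
  intro l
  induction l with
  | nil => intro _ h; exact absurd rfl h
  | cons x l ih =>
    intro h _
    cases l with
    | nil => simp [ws]
    | cons y l =>
      rw [List.isChain_cons_cons] at h
      have h1 := ih h.2 (by simp)
      simp only [ws] at h1 ⊢
      rw [h1, wt, if_neg h.1]
      simp only [List.length_cons]
      push_cast
      ring

theorem ins_chain' (l : List ℕ) :
    ((ins l) ++ [(1, 0, 0)]).IsChain (fun x y : Vx => ¬ (x.1 ≤ 1 ∧ y.1 ≤ 1)) := by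
  induction l with
  | nil => simp [ins]
  | cons u l ih =>
    cases l with
    | nil => simp [ins]
    | cons v l =>
      have h1 : ∃ r, ins (v :: l) = (0, v, 0) :: r := by
        cases l with
        | nil => exact ⟨_, rfl⟩
        | cons w l => exact ⟨_, rfl⟩
      obtain ⟨r, hr⟩ := h1
      rw [hr, List.cons_append] at ih
      simp only [ins, List.cons_append, hr, List.isChain_cons_cons]
      exact ⟨by simp, by simp, ih⟩

theorem not_enc_of_ham {I : ℕ × List (ℕ × ℕ)} (hn : 3 ≤ I.1) (h : HamL I) :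
    ¬ EvenNearlyConservative (inst I) := by
  obtain ⟨t, h1, h2, h3⟩ := h
  have hlen := length_of_range h1 h2
  intro h
  unfold inst at h
  rw [enc_iff (vL_nodup I)] at h
  have hch := ins_chain 0 t
  have hr : ∃ r, ins (0 :: t) = (0, 0, 0) :: r := by
    cases t with
    | nil => exact ⟨_, rfl⟩
    | cons w l => exact ⟨_, rfl⟩
  obtain ⟨r, hr⟩ := hr
  have h4 := h (1, 0, 0) (ins (0 :: t)) ?_ ?_ ?_ ?_ ?_
  · rw [ins_length, hlen] at h4
    exact absurd h4 (by rw [Nat.not_even_iff_odd]; exact ⟨I.1, rfl⟩)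
  · rw [ins_length, hlen]; omega
  · rw [List.nodup_cons]
    refine ⟨fun h5 => ?_, ins_nodup h1⟩
    rcases (mem_ins h5).2 with h6 | h6
    · exact absurd h6.1 (by decide)
    · exact absurd h6.1 (by decide)
  · rintro ⟨k, a, b⟩ hx
    rw [mem_vL]
    rcases List.mem_cons.1 hx with hx | hx
    · simp only [Prod.mk.injEq] at hx
      exact Or.inr (Or.inl hx)
    · obtain ⟨h5, h6⟩ := mem_ins hx
      rcases h6 with ⟨rfl, rfl⟩ | ⟨rfl, h6⟩
      · exact Or.inl ⟨rfl, (h2 a).1 h5, rfl⟩
      · refine Or.inr (Or.inr ⟨rfl, (h2 a).1 h5, ?_⟩)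
        have key : ∀ (l : List ℕ) (e : ℕ), l ≠ [] → (l ++ [e]).IsChain
            (fun u v => adjE I.2 u v = true) →
            ∀ p ∈ (l.zip l.tail) ++ [(l.getLastD 0, e)], adjE I.2 p.1 p.2 = true ∧
              (p.2 ∈ l ∨ p.2 = e) := by
          intro l e
          induction l with
          | nil => intro h; exact absurd rfl h
          | cons x l ih =>
            intro _ hc p hp
            cases l with
            | nil =>
              simp only [List.tail_cons, List.zip_nil_right, List.nil_append, List.mem_cons,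
                List.not_mem_nil, or_false, List.getLastD_cons, List.getLastD_nil] at hp
              subst hp
              simp only [List.cons_append, List.nil_append, List.isChain_cons_cons] at hc
              exact ⟨hc.1, Or.inr rfl⟩
            | cons y l =>
              simp only [List.cons_append, List.isChain_cons_cons] at hc
              simp only [List.tail_cons, List.zip_cons_cons, List.cons_append, List.mem_cons,
                List.getLastD_cons] at hp
              rcases hp with rfl | hp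
              · exact ⟨hc.1, Or.inl (by simp)⟩
              · have h7 := ih (by simp) (by rw [List.cons_append]; exact hc.2) p (by
                  simpa only [List.tail_cons, List.getLastD_cons] using hp)
                exact ⟨h7.1, h7.2.imp (List.mem_cons_of_mem _) id⟩
        have h7 := key (0 :: t) 0 (by simp) h3 (a, b) h6
        refine ⟨?_, h7.1⟩
        rcases h7.2 with h8 | h8
        · exact (h2 b).1 h8
        · simp only at h8
          omega
  · rw [hr] at hch ⊢
    rw [List.cons_append] at hch ⊢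
    rw [List.isChain_cons_cons]
    exact ⟨by simp [arcB, arc0], hch⟩
  · have h5 := ws_neg (n := I.1) _ (ins_chain' (0 :: t)) (by simp)
    rw [hr] at h5 ⊢
    rw [List.cons_append] at h5 ⊢
    simp only [ws]
    rw [h5, wt, if_pos (by simp)]
    have h6 : (((0, 0, 0) :: (r ++ [(1, 0, 0)])) : List Vx).length = 2 * I.1 + 1 := by
      have := ins_length (0 :: t)
      rw [hr, hlen] at this
      simp only [List.length_cons, List.length_append, List.length_nil] at this ⊢
      omega
    rw [h6]
    have h7 : (2 * I.1 - 1 : ℕ) + 1 = 2 * I.1 := by omega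
    have h8 : ((2 * I.1 - 1 : ℕ) : ℚ) + 1 = ((2 * I.1 : ℕ) : ℚ) := by exact_mod_cast h7
    push_cast at h8 ⊢
    linarith

/-! ### From negative odd cycles to Hamiltonian cycles -/

theorem ws_split {V : Type} (w : V → V → ℚ) (c : V) (l l' : List V) :
    ws w (l ++ c :: l') = ws w (l ++ [c]) + ws w (c :: l') := by
  induction l with
  | nil => simp [ws]
  | cons x l ih =>
    cases l with
    | nil =>
      simp only [List.cons_append, List.nil_append, ws]
      ring
    | cons y l =>
      simp only [List.cons_append, ws] at ih ⊢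
      rw [ih]
      ring

theorem ws_rotate {V : Type} (w : V → V → ℚ) (a b : V) (u v : List V) :
    ws w (a :: ((u ++ b :: v) ++ [a])) = ws w (b :: ((v ++ a :: u) ++ [b])) := by
  have h1 : a :: ((u ++ b :: v) ++ [a]) = (a :: u) ++ b :: (v ++ [a]) := by simp
  have h2 : b :: ((v ++ a :: u) ++ [b]) = (b :: v) ++ a :: (u ++ [b]) := by simp
  rw [h1, h2, ws_split, ws_split w a]
  have h3 : (b :: v) ++ [a] = b :: (v ++ [a]) := rfl
  have h4 : (a :: u) ++ [b] = a :: (u ++ [b]) := rfl
  rw [h3, h4]
  ring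

/-- In a closed walk without a step between vertices of the kinds `0`, `1`, the number of steps
is even. -/
theorem alt_parity (l : List Vx) (x : Vx)
    (h : (x :: l).IsChain (fun x y => arcB x y = true ∧ ¬ (x.1 ≤ 1 ∧ y.1 ≤ 1))) :
    (((x :: l).getLast (by simp)).1 = 2 ↔ x.1 = 2) ↔ Even l.length := by
  induction l generalizing x with
  | nil => simp
  | cons y l ih =>
    rw [List.isChain_cons_cons] at h
    have h1 := ih y h.2
    rw [List.getLast_cons (by simp)]
    rw [List.length_cons, Nat.even_add_one, ← h1]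
    have h2 : x.1 = 2 ↔ ¬ (y.1 = 2) := by
      have h3 := h.1
      rw [arcB_iff, arc0_iff, arc0_iff] at h3
      omega
    tauto

/-- Two vertices of kinds `0`, `1` are joined by a path with one inner vertex. -/
def T (I : ℕ × List (ℕ × ℕ)) (x y : Vx) : Prop :=
  ∃ m ∈ vL I, m.1 = 2 ∧ arcB x m = true ∧ arcB m y = true

theorem T_symm {I : ℕ × List (ℕ × ℕ)} {x y : Vx} (h : T I x y) : T I y x := by
  obtain ⟨m, h1, h2, h3, h4⟩ := h
  exact ⟨m, h1, h2, arcB_symm h4, arcB_symm h3⟩

theorem dec (I : ℕ × List (ℕ × ℕ)) : ∀ (N : ℕ) (P : List Vx) (hP : P ≠ []), P.length ≤ N →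
    P.IsChain (fun x y => arcB x y = true ∧ ¬ (x.1 ≤ 1 ∧ y.1 ≤ 1)) → (∀ x ∈ P, x ∈ vL I) →
    (P.head hP).1 ≤ 1 → (P.getLast hP).1 ≤ 1 →
    ∃ (xs : List Vx) (hxs : xs ≠ []), xs.Sublist P ∧ xs.IsChain (T I) ∧
      xs.head hxs = P.head hP ∧ xs.getLast hxs = P.getLast hP ∧ P.length + 1 = 2 * xs.length ∧
      ∀ x ∈ xs, x.1 ≤ 1 := by
  intro N
  induction N with
  | zero =>
    intro P hP h
    exact absurd (List.length_pos_of_ne_nil hP) (by omega)
  | succ N ih =>
    intro P hP hlen hch hm hh hl
    match P, hP with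
    | [x], _ =>
      exact ⟨[x], by simp, List.Sublist.refl _, by simp, rfl, rfl, by simp, by simpa using hh⟩
    | [x, y], _ =>
      exfalso
      simp only [List.isChain_cons_cons] at hch
      simp only [List.head_cons] at hh
      simp only [List.getLast_cons_cons, List.getLast_singleton] at hl
      exact hch.1.2 ⟨hh, hl⟩
    | x :: m :: z :: l, _ =>
      simp only [List.isChain_cons_cons] at hch
      obtain ⟨⟨h1, h1'⟩, ⟨h2, h2'⟩, h3⟩ := hch
      simp only [List.head_cons] at hh
      have hm2 : m.1 = 2 := by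
        rw [arcB_iff, arc0_iff, arc0_iff] at h1
        omega
      have hz : z.1 ≤ 1 := by
        rw [arcB_iff, arc0_iff, arc0_iff] at h2
        omega
      obtain ⟨xs, hxs, g1, g2, g3, g4, g5, g6⟩ := ih (z :: l) (by simp)
        (by simp only [List.length_cons] at hlen ⊢; omega) h3
        (fun y hy => hm y (List.mem_cons_of_mem _ (List.mem_cons_of_mem _ hy)))
        (by simpa using hz) (by
          simpa only [List.getLast_cons_cons] using hl)
      refine ⟨x :: xs, by simp, ?_, ?_, rfl, ?_, ?_, ?_⟩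
      · exact (g1.trans (List.sublist_cons_self m _)).cons_cons x
      · cases xs with
        | nil => exact absurd rfl hxs
        | cons y xs =>
          rw [List.isChain_cons_cons]
          refine ⟨⟨m, hm m (by simp), hm2, h1, ?_⟩, g2⟩
          simp only [List.head_cons] at g3
          rw [g3]
          exact h2
      · rw [List.getLast_cons hxs, g4]
        simp only [List.getLast_cons_cons]
      · simp only [List.length_cons] at g5 ⊢
        omega
      · intro y hy
        rcases List.mem_cons.1 hy with rfl | hy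
        · exact hh
        · exact g6 y hy

theorem chain_ne {V : Type} {R : V → V → Prop} {l : List V} (h : l.IsChain R) (hn : l.Nodup) :
    l.IsChain (fun x y => R x y ∧ x ≠ y) := by
  induction l with
  | nil => simp
  | cons x l ih =>
    cases l with
    | nil => simp
    | cons y l =>
      rw [List.isChain_cons_cons] at h ⊢
      rw [List.nodup_cons] at hn
      exact ⟨⟨h.1, fun he => hn.1 (by rw [he]; simp)⟩, ih h.2 hn.2⟩

theorem T_vv {I : ℕ × List (ℕ × ℕ)} {u v : ℕ} (h : T I (0, u, 0) (0, v, 0)) (hne : u ≠ v) :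
    adjE I.2 u v = true := by
  obtain ⟨⟨k, a, b⟩, h1, h2, h3, h4⟩ := h
  simp only at h2
  subst h2
  rw [mem_vL] at h1
  have h5 : adjE I.2 a b = true := by
    rcases h1 with h1 | h1 | h1
    · exact absurd h1.1 (by decide)
    · exact absurd h1.1 (by decide)
    · exact h1.2.2.2
  rw [arcB_iff, arc0_iff, arc0_iff] at h3 h4
  simp only at h3 h4
  have h6 : (u = a ∧ v = b) ∨ (u = b ∧ v = a) := by omega
  rcases h6 with ⟨rfl, rfl⟩ | ⟨rfl, rfl⟩
  · exact h5
  · exact adjE_symm h5

theorem T_vr {I : ℕ × List (ℕ × ℕ)} {u : ℕ} (h : T I (0, u, 0) (1, 0, 0)) (hne : u ≠ 0) :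
    adjE I.2 u 0 = true := by
  obtain ⟨⟨k, a, b⟩, h1, h2, h3, h4⟩ := h
  simp only at h2
  subst h2
  rw [mem_vL] at h1
  have h5 : adjE I.2 a b = true := by
    rcases h1 with h1 | h1 | h1
    · exact absurd h1.1 (by decide)
    · exact absurd h1.1 (by decide)
    · exact h1.2.2.2
  rw [arcB_iff, arc0_iff, arc0_iff] at h3 h4
  simp only at h3 h4
  have h6 : (u = a ∧ 0 = b) ∨ (u = b ∧ 0 = a) := by omega
  rcases h6 with ⟨rfl, rfl⟩ | ⟨rfl, rfl⟩
  · exact h5
  · exact adjE_symm h5

/-- A long path from `0` to its twin gives a Hamiltonian cycle. -/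
theorem ham_of_path {I : ℕ × List (ℕ × ℕ)} (hn : 3 ≤ I.1) {xs : List Vx} (hxs : xs ≠ [])
    (h1 : xs.Nodup) (h2 : xs.IsChain (T I)) (h3 : xs.head hxs = (0, 0, 0))
    (h4 : xs.getLast hxs = (1, 0, 0)) (h5 : I.1 + 1 ≤ xs.length) (h6 : ∀ x ∈ xs, x.1 ≤ 1)
    (h7 : ∀ x ∈ xs, x ∈ vL I) : HamL I := by
  obtain ⟨zs, rfl⟩ : ∃ zs, xs = zs ++ [(1, 0, 0)] :=
    ⟨xs.dropLast, by rw [← h4, List.dropLast_append_getLast]⟩
  rw [List.nodup_append] at h1
  have hz : ∀ x ∈ zs, ∃ u, u < I.1 ∧ x = (0, u, 0) := by
    rintro ⟨k, a, b⟩ hx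
    have g1 := h6 _ (List.mem_append_left _ hx)
    have g2 := h7 _ (List.mem_append_left _ hx)
    have g3 := h1.2.2 _ hx (1, 0, 0) (by simp)
    rw [mem_vL] at g2
    simp only at g1
    rcases g2 with g2 | g2 | g2
    · obtain ⟨rfl, g2, rfl⟩ := g2
      exact ⟨a, g2, rfl⟩
    · obtain ⟨rfl, rfl, rfl⟩ := g2
      exact absurd rfl g3
    · omega
  set us : List ℕ := zs.map (fun x => x.2.1) with hus
  have hzu : zs = us.map (fun u => ((0, u, 0) : Vx)) := by
    rw [hus, List.map_map]
    have : ∀ x ∈ zs, x = ((fun u => ((0, u, 0) : Vx)) ∘ fun x => x.2.1) x := by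
      intro x hx
      obtain ⟨u, _, rfl⟩ := hz x hx
      rfl
    conv_lhs => rw [← List.map_id zs]
    exact List.map_congr_left this
  have hlt : ∀ u ∈ us, u < I.1 := by
    intro u hu
    rw [hus, List.mem_map] at hu
    obtain ⟨x, hx, rfl⟩ := hu
    obtain ⟨v, hv, rfl⟩ := hz x hx
    exact hv
  have hund : us.Nodup := by
    have := h1.1
    rw [hzu] at this
    exact List.Nodup.of_map _ this
  have hul : I.1 ≤ us.length := by
    rw [hus, List.length_map]
    simp only [List.length_append, List.length_cons, List.length_nil] at h5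
    omega
  have hall : ∀ x, x ∈ us ↔ x < I.1 := by
    intro x
    refine ⟨hlt x, fun hx => ?_⟩
    have g1 : us.toFinset ⊆ Finset.range I.1 := by
      intro y hy
      rw [List.mem_toFinset] at hy
      exact Finset.mem_range.2 (hlt y hy)
    have g2 : us.toFinset = Finset.range I.1 := Finset.eq_of_subset_of_card_le g1 (by
      rw [Finset.card_range, List.toFinset_card_of_nodup hund]
      exact hul)
    rw [← List.mem_toFinset, g2]
    exact Finset.mem_range.2 hx
  have hune : us ≠ [] := fun h => by rw [h] at hul; simp at hul; omega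
  have hhead : us.head hune = 0 := by
    have : zs ≠ [] := fun h => by rw [h] at hus; exact hune hus
    rw [List.head_append_of_ne_nil this] at h3
    have g1 : us.head hune = (zs.head this).2.1 := by
      simp only [hus, List.head_map]
    rw [g1, h3]
  obtain ⟨t, ht⟩ : ∃ t, us = 0 :: t := by
    obtain ⟨u, t, hu⟩ := List.exists_cons_of_ne_nil hune
    refine ⟨t, ?_⟩
    simp only [hu, List.head_cons] at hhead
    rw [hu, hhead]
  obtain ⟨us', w, hw⟩ : ∃ us' w, us = us' ++ [w] :=
    ⟨us.dropLast, us.getLast hune, (List.dropLast_append_getLast hune).symm⟩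
  have hw0 : w ≠ 0 := by
    rintro rfl
    rw [hw] at ht hund hul
    cases us' with
    | nil => simp at hul; omega
    | cons y us' =>
      rw [List.cons_append, List.cons.injEq] at ht
      obtain ⟨rfl, _⟩ := ht
      rw [List.cons_append, List.nodup_cons] at hund
      exact hund.1 (by simp)
  refine ⟨t, ht ▸ hund, fun x => by rw [← ht]; exact hall x, ?_⟩
  have e1 : 0 :: (t ++ [0]) = us' ++ w :: [0] := by
    rw [← List.cons_append, ← ht, hw]
    simp
  have e2 : zs ++ [(1, 0, 0)] = us'.map (fun u => ((0, u, 0) : Vx)) ++ (0, w, 0) :: [(1, 0, 0)] := by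
    rw [hzu, hw]
    simp
  rw [e1, List.isChain_split]
  rw [e2, List.isChain_split] at h2
  constructor
  · rw [← hw]
    have g1 : (us.map (fun u => ((0, u, 0) : Vx))).IsChain (T I) := by
      rw [hw, List.map_append]
      exact h2.1
    rw [List.isChain_map] at g1
    exact (chain_ne g1 hund).imp fun u v huv => T_vv huv.1 huv.2
  · have g1 := h2.2
    simp only [List.isChain_cons_cons] at g1
    simp only [List.isChain_cons_cons, List.isChain_singleton, and_true]
    exact T_vr g1.1 hw0

theorem exists_special {R S : Vx → Vx → Prop} (l : List Vx) (h : l.IsChain R)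
    (hs : ¬ l.IsChain (fun x y => R x y ∧ ¬ S x y)) :
    ∃ l1 x y l2, l = l1 ++ x :: y :: l2 ∧ R x y ∧ S x y := by
  induction l with
  | nil => simp at hs
  | cons x l ih =>
    cases l with
    | nil => simp at hs
    | cons y l =>
      rw [List.isChain_cons_cons] at h hs
      by_cases h1 : S x y
      · exact ⟨[], x, y, l, rfl, h.1, h1⟩
      · obtain ⟨l1, a, b, l2, h2, h3⟩ := ih h.2 (fun h' => hs ⟨⟨h.1, h1⟩, h'⟩)
        exact ⟨x :: l1, a, b, l2, by rw [h2]; rfl, h3⟩

theorem ham_of_not_enc {I : ℕ × List (ℕ × ℕ)} (hn : 3 ≤ I.1)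
    (h : ¬ EvenNearlyConservative (inst I)) : HamL I := by
  unfold inst at h
  rw [enc_iff (vL_nodup I)] at h
  push Not at h
  obtain ⟨a, t, h1, h2, h3, h4, h5, h6⟩ := h
  -- a special step
  have hs : ¬ (a :: (t ++ [a])).IsChain (fun x y => arcB x y = true ∧ ¬ (x.1 ≤ 1 ∧ y.1 ≤ 1)) := by
    intro hc
    have := alt_parity _ _ hc
    rw [List.getLast_cons (by simp), List.getLast_append_singleton, List.length_append,
      List.length_singleton] at this
    exact h6 (this.1 Iff.rfl)
  obtain ⟨l1, x, y, l2, e1, hxy, hxy1⟩ := exists_special _ h4 hs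
  -- rotate
  obtain ⟨l3, r, e2, e3⟩ : ∃ l3 r, a :: t = l1 ++ x :: l3 ∧ l3 ++ l1 = y :: r := by
    rcases List.eq_nil_or_concat l2 with h7 | ⟨l2', b, h7⟩
    · subst h7
      have e4 : (a :: t) ++ [a] = (l1 ++ [x]) ++ [y] := by
        rw [List.cons_append, e1]; simp
      obtain ⟨e5, e6⟩ := List.append_inj' e4 rfl
      simp only [List.cons.injEq, and_true] at e6
      subst e6
      cases l1 with
      | nil =>
        simp only [List.nil_append, List.cons.injEq] at e5
        rw [e5.2] at h1
        simp at h1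
      | cons z l1 =>
        rw [List.cons_append, List.cons.injEq] at e5
        refine ⟨[], l1, ?_, ?_⟩
        · rw [List.cons_append, e5.2, e5.1]
        · rw [List.nil_append, e5.1]
    · rw [List.concat_eq_append] at h7
      subst h7
      have e4 : (a :: t) ++ [a] = (l1 ++ x :: y :: l2') ++ [b] := by
        rw [List.cons_append, e1]; simp
      obtain ⟨e5, _⟩ := List.append_inj' e4 rfl
      exact ⟨y :: l2', l2' ++ l1, e5, rfl⟩
  -- the rotated cycle
  have hperm : List.Perm (x :: (y :: r)) (a :: t) := by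
    rw [e2, ← e3]
    have : x :: (l3 ++ l1) = (x :: l3) ++ l1 := rfl
    rw [this]
    exact List.perm_append_comm
  have hch : (x :: ((y :: r) ++ [x])).IsChain (fun x y => arcB x y = true) ∧
      ws (wt I.1) (x :: ((y :: r) ++ [x])) < 0 := by
    rw [← e3]
    cases l1 with
    | nil =>
      rw [List.nil_append, List.cons.injEq] at e2
      obtain ⟨rfl, rfl⟩ := e2
      rw [List.append_nil]
      exact ⟨h4, h5⟩
    | cons z l1 =>
      rw [List.cons_append, List.cons.injEq] at e2
      obtain ⟨rfl, rfl⟩ := e2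
      exact ⟨closed_rotate h4, by rw [← ws_rotate]; exact h5⟩
  have hnd : (x :: (y :: r)).Nodup := hperm.nodup_iff.2 h2
  have hmem : ∀ z ∈ x :: (y :: r), z ∈ vL I := fun z hz => h3 z (hperm.mem_iff.1 hz)
  have hlen : (y :: r).length = t.length := by
    have := hperm.length_eq
    simpa using this
  clear h2 h3 h4 h5 e1 e2 e3 hperm hs
  rw [List.length_cons] at hlen
  -- the special vertices
  have hx := hmem x (by simp)
  have hy := hmem y (by simp)
  have hends : (x = (0, 0, 0) ∧ y = (1, 0, 0)) ∨ (x = (1, 0, 0) ∧ y = (0, 0, 0)) := by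
    obtain ⟨k, p, q⟩ := x
    obtain ⟨k', p', q'⟩ := y
    rw [arcB_iff, arc0_iff, arc0_iff] at hxy
    rw [mem_vL] at hx hy
    simp only [Prod.mk.injEq] at *
    omega
  have hr : r ≠ [] := by
    rintro rfl
    simp only [List.length_nil] at hlen
    rw [← hlen] at h6
    exact h6 (by decide)
  -- the path
  set P : List Vx := (y :: r) ++ [x] with hP
  have hPch : P.IsChain (fun x y => arcB x y = true) := by
    have := hch.1
    have e : P = y :: (r ++ [x]) := rfl
    rw [e] at this ⊢
    rw [List.isChain_cons_cons] at this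
    exact this.2
  have hPnd : P.Nodup := by
    rw [hP]
    have : List.Perm ((y :: r) ++ [x]) (x :: (y :: r)) := by
      have e : x :: (y :: r) = [x] ++ (y :: r) := rfl
      rw [e]
      exact List.perm_append_comm
    exact this.nodup_iff.2 hnd
  have hPm : ∀ z ∈ P, z ∈ vL I := by
    intro z hz
    apply hmem
    rw [hP] at hz
    simp only [List.mem_append, List.mem_cons, List.not_mem_nil, or_false] at hz ⊢
    tauto
  have hPns : P.IsChain (fun x y => arcB x y = true ∧ ¬ (x.1 ≤ 1 ∧ y.1 ≤ 1)) := by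
    by_contra hcon
    obtain ⟨l1, p, q, l2, e1, hpq, hpq1⟩ := exists_special _ hPch hcon
    have hp := hPm p (by rw [e1]; simp)
    have hq := hPm q (by rw [e1]; simp)
    have hends' : (p = (0, 0, 0) ∧ q = (1, 0, 0)) ∨ (p = (1, 0, 0) ∧ q = (0, 0, 0)) := by
      obtain ⟨k, p1, q1⟩ := p
      obtain ⟨k', p', q'⟩ := q
      rw [arcB_iff, arc0_iff, arc0_iff] at hpq
      rw [mem_vL] at hp hq
      simp only [Prod.mk.injEq] at *
      omega
    rw [e1] at hPnd
    -- `y` is the first member and `x` the last one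
    have hpos : (p = y ∨ q = y) ∧ (p = x ∨ q = x) := by
      rcases hends with ⟨rfl, rfl⟩ | ⟨rfl, rfl⟩ <;> rcases hends' with ⟨rfl, rfl⟩ | ⟨rfl, rfl⟩ <;>
        simp
    have hl1 : l1 = [] := by
      cases l1 with
      | nil => rfl
      | cons z l1 =>
        exfalso
        rw [hP, List.cons_append, List.cons_append, List.cons.injEq] at e1
        rw [List.cons_append, List.nodup_cons, ← e1.1] at hPnd
        rcases hpos.1 with h | h
        · exact hPnd.1 (by rw [← h]; simp)
        · exact hPnd.1 (by rw [← h]; simp)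
    have hl2 : l2 = [] := by
      rcases List.eq_nil_or_concat l2 with h7 | ⟨l2', b, h7⟩
      · exact h7
      · exfalso
        rw [List.concat_eq_append] at h7
        subst h7
        have e4 : (y :: r) ++ [x] = (l1 ++ p :: q :: l2') ++ [b] := by
          rw [← hP, e1]; simp
        obtain ⟨_, e5⟩ := List.append_inj' e4 rfl
        simp only [List.cons.injEq, and_true] at e5
        have e6 : l1 ++ p :: q :: (l2' ++ [b]) = (l1 ++ p :: q :: l2') ++ [b] := by simp
        rw [e6, List.nodup_append] at hPnd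
        rcases hpos.2 with h | h
        · exact hPnd.2.2 p (by simp) b (by simp) (by rw [h, e5])
        · exact hPnd.2.2 q (by simp) b (by simp) (by rw [h, e5])
    subst hl1 hl2
    have := congrArg List.length e1
    rw [hP] at this
    simp only [List.nil_append, List.cons_append, List.length_cons, List.length_append,
      List.length_nil] at this
    exact hr (List.eq_nil_of_length_eq_zero (by omega))
  -- the length of the path
  have hPlen : P.length = r.length + 2 := by
    rw [hP]
    simp only [List.cons_append, List.length_cons, List.length_append, List.length_nil]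
  have hlong : 2 * I.1 + 1 ≤ P.length := by
    have g1 := ws_neg (n := I.1) P (hPns.imp fun _ _ h => h.2) (by rw [hP]; simp)
    have g2 := hch.2
    have g3 : x :: ((y :: r) ++ [x]) = x :: y :: (r ++ [x]) := rfl
    rw [g3] at g2
    have g4 : P = y :: (r ++ [x]) := rfl
    simp only [ws] at g2
    rw [← g4, g1, wt, if_pos hxy1] at g2
    have g5 : (2 * I.1 - 1 : ℕ) + 1 = 2 * I.1 := by omega
    have g6 : ((2 * I.1 - 1 : ℕ) : ℚ) + 1 = ((2 * I.1 : ℕ) : ℚ) := by exact_mod_cast g5
    have g7 : ((2 * I.1 : ℕ) : ℚ) < (P.length : ℚ) := by linarith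
    have g8 : 2 * I.1 < P.length := by exact_mod_cast g7
    exact g8
  have hPne : P ≠ [] := by rw [hP]; simp
  obtain ⟨xs, hxs, g1, g2, g3, g4, g5, g6⟩ := dec I P.length P hPne le_rfl hPns hPm
    (by rcases hends with ⟨rfl, rfl⟩ | ⟨rfl, rfl⟩ <;> simp [hP])
    (by rcases hends with ⟨rfl, rfl⟩ | ⟨rfl, rfl⟩ <;> simp [hP])
  have hxnd : xs.Nodup := g1.nodup hPnd
  have hxm : ∀ z ∈ xs, z ∈ vL I := fun z hz => hPm z (g1.subset hz)
  have hphead : P.head hPne = y := by simp [hP]
  have hplast : P.getLast hPne = x := by simp [hP]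
  rcases hends with ⟨hx0, hy0⟩ | ⟨hx0, hy0⟩
  · -- the path goes from the twin to `0`: reverse it
    have hrne : xs.reverse ≠ [] := by simpa using hxs
    refine ham_of_path hn (xs := xs.reverse) hrne (List.nodup_reverse.2 hxnd) ?_ ?_ ?_ ?_ ?_ ?_
    · rw [List.isChain_reverse]
      exact g2.imp fun _ _ h => T_symm h
    · rw [List.head_reverse, g4, hplast, hx0]
    · rw [List.getLast_reverse, g3, hphead, hy0]
    · rw [List.length_reverse]; omega
    · intro z hz
      exact g6 z (List.mem_reverse.1 hz)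
    · intro z hz
      exact hxm z (List.mem_reverse.1 hz)
  · refine ham_of_path hn hxs hxnd g2 ?_ ?_ (by omega) g6 hxm
    · rw [g3, hphead, hy0]
    · rw [g4, hplast, hx0]

end Pool.Agent.Q227.EN
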